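import Mathlib

/-! Linear maps on group algebras, crossed homomorphisms on free groups, and Fox derivatives. -/

namespace MP0c5642

open MonoidAlgebra

/-- The linear map on the rational group algebra with prescribed values on group elements. -/
noncomputable def lin {G V : Type*} [AddCommGroup V] [Module ℚ V] (v : G → V) :
    MonoidAlgebra ℚ G →ₗ[ℚ] V :=
  (Finsupp.linearCombination ℚ v) ∘ₗ (MonoidAlgebra.coeffLinearEquiv ℚ).toLinearMap

@[simp] lemma lin_single {G V : Type*} [AddCommGroup V] [Module ℚ V] (v : G → V) (g : G) (a : ℚ) :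
    lin v (single g a) = a • v g := by
  simp [lin]

lemma hom_ext' {G V : Type*} [AddCommGroup V] [Module ℚ V] {f f' : MonoidAlgebra ℚ G →ₗ[ℚ] V}
    (h : ∀ g, f (single g 1) = f' (single g 1)) : f = f' := by
  apply MonoidAlgebra.lhom_ext'
  intro g
  apply LinearMap.ext_ring
  simpa using h g

/-- Left crossed homomorphisms on a free group with prescribed values on the generators. -/
lemma exists_left_crossed {α A : Type*} [Ring A] (φ : FreeGroup α →* A) (c : α → A) :
    ∃ f : FreeGroup α → A, (∀ g h, f (g * h) = f g + φ g * f h) ∧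
      ∀ a, f (FreeGroup.of a) = c a := by
  have hinv : ∀ a : α, φ (FreeGroup.of a) * φ (FreeGroup.of a)⁻¹ = 1 := fun a => by
    rw [← map_mul, mul_inv_cancel, map_one]
  have hinv' : ∀ a : α, φ (FreeGroup.of a)⁻¹ * φ (FreeGroup.of a) = 1 := fun a => by
    rw [← map_mul, inv_mul_cancel, map_one]
  let T0 : α → Equiv.Perm A := fun a =>
    { toFun := fun v => c a + φ (FreeGroup.of a) * v
      invFun := fun v => φ (FreeGroup.of a)⁻¹ * (v - c a)
      left_inv := fun v => by
        simp only [add_sub_cancel_left, ← mul_assoc, hinv', one_mul]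
      right_inv := fun v => by
        simp only [← mul_assoc, hinv, one_mul, add_sub_cancel] }
  let T : FreeGroup α →* Equiv.Perm A := FreeGroup.lift T0
  have key : ∀ g : FreeGroup α, ∀ v, T g v = T g 0 + φ g * v := by
    intro g
    induction g using FreeGroup.induction_on with
    | C1 => intro v; simp
    | of a => intro v; simp [T, T0]
    | inv_of a _ =>
      intro v
      have e : ∀ w, T (FreeGroup.of a)⁻¹ w = φ (FreeGroup.of a)⁻¹ * (w - c a) := by
        intro w
        have : T (FreeGroup.of a)⁻¹ = (T0 a)⁻¹ := by simp [T]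
        rw [this]
        rfl
      rw [e, e]
      simp only [zero_sub, mul_neg, mul_sub]
      abel
    | mul x y hx hy =>
      intro v
      rw [map_mul, Equiv.Perm.mul_apply, Equiv.Perm.mul_apply, hy v, hx, hx (T y 0), map_mul]
      simp only [mul_add, mul_assoc, add_assoc]
  refine ⟨fun g => T g 0, fun g h => ?_, fun a => ?_⟩
  · change T (g * h) 0 = T g 0 + φ g * T h 0
    rw [map_mul, Equiv.Perm.mul_apply, key g]
  · simp [T, T0]

/-- Right crossed homomorphisms on a free group with prescribed values on the generators. -/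
lemma exists_right_crossed {α A : Type*} [Ring A] (φ : FreeGroup α →* A) (c : α → A) :
    ∃ f : FreeGroup α → A, (∀ g h, f (g * h) = f g * φ h + f h) ∧
      ∀ a, f (FreeGroup.of a) = c a := by
  let φ' : FreeGroup α →* Aᵐᵒᵖ :=
    { toFun := fun g => MulOpposite.op (φ g⁻¹)
      map_one' := by simp
      map_mul' := fun g h => by simp [mul_inv_rev] }
  obtain ⟨f, hf, hfa⟩ := exists_left_crossed φ'
    (fun a => MulOpposite.op (- (c a * φ (FreeGroup.of a)⁻¹)))
  have hf1 : f 1 = 0 := by
    have := hf 1 1
    simp only [mul_one, map_one, one_mul] at this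
    simpa using this
  refine ⟨fun g => MulOpposite.unop (f g⁻¹), fun g h => ?_, fun a => ?_⟩
  · change MulOpposite.unop (f (g * h)⁻¹) = MulOpposite.unop (f g⁻¹) * φ h + MulOpposite.unop (f h⁻¹)
    rw [mul_inv_rev, hf]
    simp [φ', add_comm]
  · have h1 := hf (FreeGroup.of a) (FreeGroup.of a)⁻¹
    rw [mul_inv_cancel, hf1, hfa] at h1
    have h2 := congrArg MulOpposite.unop h1
    simp only [φ', MulOpposite.unop_add, MulOpposite.unop_op, MulOpposite.unop_mul,
      MulOpposite.unop_zero, MonoidHom.coe_mk, OneHom.coe_mk] at h2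
    have h3 : MulOpposite.unop (f (FreeGroup.of a)⁻¹) * φ (FreeGroup.of a)⁻¹ =
        c a * φ (FreeGroup.of a)⁻¹ := by
      have := h2
      rw [eq_comm, neg_add_eq_zero] at this
      exact this.symm
    have h4 := congrArg (fun z => z * φ (FreeGroup.of a)) h3
    simp only [mul_assoc, ← map_mul, inv_mul_cancel, map_one, mul_one] at h4
    exact h4

/-- Uniqueness of right crossed homomorphisms. -/
lemma right_crossed_ext {α A : Type*} [Ring A] (φ : FreeGroup α →* A) {f f' : FreeGroup α → A}
    (hf : ∀ g h, f (g * h) = f g * φ h + f h) (hf' : ∀ g h, f' (g * h) = f' g * φ h + f' h)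
    (h : ∀ a, f (FreeGroup.of a) = f' (FreeGroup.of a)) : ∀ g, f g = f' g := by
  have one : ∀ {k : FreeGroup α → A}, (∀ g h, k (g * h) = k g * φ h + k h) → k 1 = 0 := by
    intro k hk
    have := hk 1 1
    simp only [mul_one, map_one] at this
    simpa using this
  intro g
  induction g using FreeGroup.induction_on with
  | C1 => rw [one hf, one hf']
  | of a => exact h a
  | inv_of a ha =>
    have e : ∀ {k : FreeGroup α → A}, (∀ g h, k (g * h) = k g * φ h + k h) →
        k (FreeGroup.of a)⁻¹ = - (k (FreeGroup.of a) * φ (FreeGroup.of a)⁻¹) := by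
      intro k hk
      have := hk (FreeGroup.of a) (FreeGroup.of a)⁻¹
      rw [mul_inv_cancel, one hk] at this
      rw [eq_neg_iff_add_eq_zero, add_comm]
      exact this.symm
    rw [e hf, e hf', ha]
  | mul x y hx hy => rw [hf, hf', hx, hy]

/-- Difference property on the right. -/
lemma lin_diff_right {G : Type*} [Group G] (τ : G → MonoidAlgebra ℚ G) (y : G)
    (c : MonoidAlgebra ℚ G) (h : ∀ g, τ (g * y) - τ g = single g 1 * c)
    (v : MonoidAlgebra ℚ G) : lin τ (v * (single y 1 - 1)) = v * c := by
  have : (lin τ) ∘ₗ (LinearMap.mulRight ℚ (single y 1 - 1)) = LinearMap.mulRight ℚ c := by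
    apply hom_ext'
    intro g
    simp only [LinearMap.comp_apply, LinearMap.mulRight_apply, mul_sub, mul_one,
      single_mul_single, map_sub, lin_single, one_smul]
    exact h g
  have h2 := congrArg (fun F => F v) this
  simpa using h2

/-- Difference property on the left. -/
lemma lin_diff_left {G V : Type*} [Group G] [AddCommGroup V] [Module ℚ V] (τ : G → V) (y : G)
    (c : G → V) (h : ∀ g, τ (y * g) - τ g = c g)
    (v : MonoidAlgebra ℚ G) : lin τ ((single y 1 - 1) * v) = lin c v := by
  have : (lin τ) ∘ₗ (LinearMap.mulLeft ℚ (single y 1 - 1)) = lin c := by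
    apply hom_ext'
    intro g
    simp only [LinearMap.comp_apply, LinearMap.mulLeft_apply, sub_mul, one_mul,
      single_mul_single, map_sub, lin_single, one_smul, mul_one]
    exact h g
  have h2 := congrArg (fun F => F v) this
  simpa using h2

end MP0c5642
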