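import Mathlib
import Pool.Agent.Lib.MP_0c5642_al.Fox

/-! Vanishing of the second homology of free subgroups, in an elementary form. -/

namespace MP0c5642

open MonoidAlgebra

/-- The left ideal of the rational group algebra generated by the elements `n - 1`, `n ∈ N`. -/
noncomputable def augIdeal {G : Type*} [Group G] (N : Set G) :
    Submodule (MonoidAlgebra ℚ G) (MonoidAlgebra ℚ G) :=
  Submodule.span _ ((fun n => single n 1 - 1) '' N)

lemma augIdeal_mono {G : Type*} [Group G] {N N' : Set G} (h : N ⊆ N') :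
    augIdeal N ≤ augIdeal N' :=
  Submodule.span_mono (Set.image_mono h)

lemma single_mul_sub_mem {G : Type*} [Group G]
    (P : Submodule (MonoidAlgebra ℚ G) (MonoidAlgebra ℚ G)) {g h : G}
    (hg : single g 1 - 1 ∈ P) (hh : single h 1 - 1 ∈ P) : single (g * h) 1 - 1 ∈ P := by
  have e : (single (g * h) 1 - 1 : MonoidAlgebra ℚ G) =
      (single g 1 : MonoidAlgebra ℚ G) • (single h 1 - 1 : MonoidAlgebra ℚ G)
        + (single g 1 - 1) := by
    rw [smul_eq_mul, mul_sub, single_mul_single, mul_one, mul_one]; abel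
  rw [e]
  exact P.add_mem (P.smul_mem _ hh) hg

lemma single_inv_sub_mem {G : Type*} [Group G]
    (P : Submodule (MonoidAlgebra ℚ G) (MonoidAlgebra ℚ G)) {g : G}
    (hg : single g 1 - 1 ∈ P) : single g⁻¹ 1 - 1 ∈ P := by
  have e : (single g⁻¹ 1 - 1 : MonoidAlgebra ℚ G) = 
      -((single g⁻¹ 1 : MonoidAlgebra ℚ G) • (single g 1 - 1 : MonoidAlgebra ℚ G)) := by
    rw [smul_eq_mul, mul_sub, single_mul_single, mul_one, mul_one, inv_mul_cancel, ← one_def]; abel
  rw [e]
  exact P.neg_mem (P.smul_mem _ hg)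

lemma single_one_sub_mem {G : Type*} [Group G]
    (P : Submodule (MonoidAlgebra ℚ G) (MonoidAlgebra ℚ G)) : single (1 : G) 1 - 1 ∈ P := by
  rw [← one_def, sub_self]; exact P.zero_mem

lemma augIdeal_closure {G : Type*} [Group G] (S : Set G) :
    augIdeal (Subgroup.closure S : Set G) = augIdeal S := by
  apply le_antisymm
  · unfold augIdeal
    rw [Submodule.span_le]
    rintro _ ⟨n, hn, rfl⟩
    refine Subgroup.closure_induction
      (p := fun n _ => (single n 1 - 1 : MonoidAlgebra ℚ G) ∈
        (Submodule.span (MonoidAlgebra ℚ G) ((fun n => single n 1 - 1) '' S) :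
          Submodule (MonoidAlgebra ℚ G) (MonoidAlgebra ℚ G))) ?_ ?_ ?_ ?_ hn
    · intro y hy
      exact Submodule.subset_span ⟨y, hy, rfl⟩
    · exact single_one_sub_mem _
    · intro y z _ _ h1 h2
      exact single_mul_sub_mem _ h1 h2
    · intro y _ h1
      exact single_inv_sub_mem _ h1
  · exact augIdeal_mono Subgroup.subset_closure

/-- `∑ w_i (y_i - 1) = 0` forces `w = 0` if the `y_i` are a basis of a free subgroup. -/
lemma free_indep {G : Type*} [Group G] (N0 : Subgroup G) {ι : Type*} (b : FreeGroupBasis ι N0)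
    (w : ι →₀ MonoidAlgebra ℚ G)
    (hw : w.sum (fun i a => a * (single ((b i : N0) : G) 1 - 1)) = 0) : w = 0 := by
  classical
  ext1 j
  -- left Fox derivative
  obtain ⟨L, hL, hLa⟩ := exists_left_crossed
    ((MonoidAlgebra.of ℚ G).comp (N0.subtype.comp b.repr.symm.toMonoidHom))
    (fun i => if i = j then (1 : MonoidAlgebra ℚ G) else 0)
  have hmem : ∀ g : G, ((QuotientGroup.mk g : G ⧸ N0).out)⁻¹ * g ∈ N0 := by
    intro g
    rw [← QuotientGroup.eq, QuotientGroup.out_eq']
  let τ : G → MonoidAlgebra ℚ G := fun g =>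
    single ((QuotientGroup.mk g : G ⧸ N0).out) 1 * L (b.repr ⟨_, hmem g⟩)
  have hτ : ∀ i g, τ (g * ((b i : N0) : G)) - τ g =
      single g 1 * (if i = j then (1 : MonoidAlgebra ℚ G) else 0) := by
    intro i g
    have hq : (QuotientGroup.mk (g * ((b i : N0) : G)) : G ⧸ N0) = QuotientGroup.mk g := by
      rw [QuotientGroup.eq]
      simp
    have e1 : b.repr ⟨_, hmem (g * ((b i : N0) : G))⟩ = b.repr ⟨_, hmem g⟩ * FreeGroup.of i := by
      rw [← b.repr_apply_coe i, ← map_mul]
      congr 1
      apply Subtype.ext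
      simp only [Subgroup.coe_mul, hq, mul_assoc]
    simp only [τ]
    rw [e1, hq, hL, hLa]
    simp only [MonoidHom.comp_apply, MulEquiv.toMonoidHom_eq_coe, MonoidHom.coe_coe,
      MulEquiv.symm_apply_apply, Subgroup.coe_subtype, MonoidAlgebra.of_apply, mul_add,
      add_sub_cancel_left, ← mul_assoc, single_mul_single, mul_inv_cancel, one_mul, mul_one]
  have hlin : ∀ i v, lin τ (v * (single ((b i : N0) : G) 1 - 1)) =
      v * (if i = j then (1 : MonoidAlgebra ℚ G) else 0) := fun i v =>
    lin_diff_right τ _ _ (hτ i) v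
  have h0 := congrArg (lin τ) hw
  rw [map_zero, Finsupp.sum, map_sum] at h0
  simp only [hlin, mul_ite, mul_one, mul_zero, Finset.sum_ite_eq', Finsupp.mem_support_iff] at h0
  by_cases hj : w j = 0
  · rw [hj]; rfl
  · rw [if_pos hj] at h0
    rw [h0]; rfl

/-- The elementary form of the vanishing of `H_2` for free subgroups. -/
theorem tor_vanish {G : Type*} [Group G] [NoZeroDivisors (MonoidAlgebra ℚ G)] {X : Fin 2 → G}
    {Dr : Fin 2 → MonoidAlgebra ℚ G}
    (H1 : ∑ x, (single (X x) 1 - 1) * Dr x = 0)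
    (H2 : ∀ u : Fin 2 → MonoidAlgebra ℚ G, ∑ x, (single (X x) 1 - 1) * u x = 0 →
      ∃ w, ∀ x, u x = Dr x * w)
    (H3 : ∃ x, Dr x ≠ 0) (N0 : Subgroup G) (hfree : IsFreeGroup N0) (z : MonoidAlgebra ℚ G)
    (hz : ∀ x, Dr x * z ∈ augIdeal (N0 : Set G)) : z ∈ augIdeal (N0 : Set G) := by
  classical
  obtain ⟨ι, ⟨b⟩⟩ := hfree.nonempty_basis
  set y : ι → MonoidAlgebra ℚ G := fun i => single ((b i : N0) : G) 1 - 1 with hy
  have hspan : augIdeal (N0 : Set G) ≤ Submodule.span (MonoidAlgebra ℚ G) (Set.range y) := by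
    unfold augIdeal
    rw [Submodule.span_le]
    rintro _ ⟨n, hn, rfl⟩
    have key : ∀ w : FreeGroup ι, (single ((b.repr.symm w : N0) : G) 1 - 1 : MonoidAlgebra ℚ G) ∈
        Submodule.span (MonoidAlgebra ℚ G) (Set.range y) := by
      intro w
      induction w using FreeGroup.induction_on with
      | C1 =>
        rw [map_one]
        exact single_one_sub_mem _
      | of a => exact Submodule.subset_span ⟨a, rfl⟩
      | inv_of a h =>
        rw [map_inv]
        exact single_inv_sub_mem _ h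
      | mul u v hu hv =>
        rw [map_mul]
        exact single_mul_sub_mem _ hu hv
    have := key (b.repr ⟨n, hn⟩)
    rw [MulEquiv.symm_apply_apply] at this
    exact this
  have hspan' : Submodule.span (MonoidAlgebra ℚ G) (Set.range y) ≤ augIdeal (N0 : Set G) := by
    rw [Submodule.span_le]
    rintro _ ⟨i, rfl⟩
    exact Submodule.subset_span ⟨((b i : N0) : G), (b i).2, rfl⟩
  have hv := fun x => (Finsupp.mem_span_range_iff_exists_finsupp.mp (hspan (hz x)))
  choose v hv using hv
  -- the coefficients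
  have hw0 : (∑ x, (Finsupp.mapRange (fun a => (single (X x) 1 - 1) * a) (mul_zero _) (v x))) = 0 := by
    apply free_indep N0 b
    rw [← Finsupp.sum_finsetSum_index (fun _ => zero_mul _) (fun _ _ _ => add_mul _ _ _)]
    have e : ∀ x, (Finsupp.mapRange (fun a => (single (X x) 1 - 1) * a) (mul_zero _) (v x)).sum
        (fun i a => a * (single ((b i : N0) : G) 1 - 1)) = (single (X x) 1 - 1) * (Dr x * z) := by
      intro x
      rw [Finsupp.sum_mapRange_index (fun _ => zero_mul _), ← hv x, Finsupp.mul_sum]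
      simp only [mul_assoc, smul_eq_mul, hy]
    simp only [e, ← mul_assoc, ← Finset.sum_mul, H1, zero_mul]
  have hω : ∀ i, ∃ w, ∀ x, v x i = Dr x * w := by
    intro i
    apply H2
    have := congrArg (fun F => F i) hw0
    simpa [Finsupp.finsetSum_apply] using this
  choose ω hω using hω
  obtain ⟨x0, hx0⟩ := H3
  set s : Finset ι := (v x0).support with hs
  have hfin : Dr x0 * (z - ∑ i ∈ s, ω i * y i) = 0 := by
    rw [mul_sub, ← hv x0, Finset.mul_sum, Finsupp.sum, sub_eq_zero]
    apply Finset.sum_congr rfl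
    intro i _
    rw [smul_eq_mul, hω i x0, mul_assoc]
  rcases mul_eq_zero.mp hfin with h | h
  · exact absurd h hx0
  · rw [sub_eq_zero] at h
    rw [h]
    apply hspan'
    apply Submodule.sum_mem
    intro i _
    exact Submodule.smul_mem _ _ (Submodule.subset_span ⟨i, rfl⟩)

end MP0c5642
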