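import Mathlib
import Pool.Agent.Lib.MP_0c5642_al.Tor

/-! The dimension count over the field of rational functions. -/

namespace MP0c5642

open MonoidAlgebra LaurentPolynomial

instance : IsDomain (LaurentPolynomial ℚ) := NoZeroDivisors.to_isDomain _

/-- The field of fractions of the Laurent polynomials over `ℚ`. -/
abbrev EF : Type := FractionRing (LaurentPolynomial ℚ)

lemma lin_add {G V : Type*} [AddCommGroup V] [Module ℚ V] (v v' : G → V)
    (y : MonoidAlgebra ℚ G) : lin (v + v') y = lin v y + lin v' y := by
  have : lin (v + v') = lin v + lin v' := by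
    apply hom_ext'; intro g; simp
  rw [this]; rfl

lemma lin_smul {G : Type*} (c : EF) (v : G → EF) (y : MonoidAlgebra ℚ G) :
    lin (c • v) y = c * lin v y := by
  have : lin (c • v) = (LinearMap.mulLeft ℚ c) ∘ₗ (lin v) := by
    apply hom_ext'; intro g; simp
  rw [this]; rfl

/-- The right action of the group algebra on functions on the group. -/
noncomputable def act {G : Type*} [Group G] (y : MonoidAlgebra ℚ G) : (G → EF) →ₗ[EF] (G → EF) where
  toFun h := fun s => lin h (y * single s 1)
  map_add' h h' := by ext s; simp only [lin_add, Pi.add_apply]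
  map_smul' c h := by ext s; simp only [lin_smul, Pi.smul_apply, smul_eq_mul, RingHom.id_apply]

lemma act_apply {G : Type*} [Group G] (y : MonoidAlgebra ℚ G) (h : G → EF) (s : G) :
    act y h s = lin h (y * single s 1) := rfl

lemma lin_act {G : Type*} [Group G] (y w : MonoidAlgebra ℚ G) (h : G → EF) :
    lin (act y h) w = lin h (y * w) := by
  have : lin (act y h) = (lin h) ∘ₗ (LinearMap.mulLeft ℚ y) := by
    apply hom_ext'; intro g; simp [act_apply]
  rw [this]; rfl

lemma act_act {G : Type*} [Group G] (y w : MonoidAlgebra ℚ G) (h : G → EF) :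
    act w (act y h) = act (y * w) h := by
  ext s
  rw [act_apply, lin_act, act_apply, mul_assoc]

lemma act_sum {G : Type*} [Group G] (y : Fin 2 → MonoidAlgebra ℚ G) (h : G → EF) :
    ∑ x, act (y x) h = act (∑ x, y x) h := by
  ext s
  simp only [Finset.sum_apply, act_apply, Finset.sum_mul, map_sum]

section
variable {G : Type*} [Group G] (H : Subgroup G) (ν : H →* Multiplicative ℤ)

/-- The character of `H` with values in the Laurent monomials. -/
noncomputable def psi (g : H) : EF :=
  algebraMap (LaurentPolynomial ℚ) EF (T (Multiplicative.toAdd (ν g)))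

lemma psi_mul (g h : H) : psi H ν (g * h) = psi H ν g * psi H ν h := by
  simp only [psi, map_mul, toAdd_mul, T_add]

lemma psi_one : psi H ν 1 = 1 := by
  simp only [psi, map_one, toAdd_one, T_zero]

/-- The functions on `G` transforming by `psi` under right multiplication by `H`. -/
noncomputable def W : Submodule EF (G → EF) where
  carrier := {h | ∀ (s : G) (g : H), h (s * g) = h s * psi H ν g}
  add_mem' {a b} ha hb s g := by rw [Pi.add_apply, Pi.add_apply, ha, hb, add_mul]
  zero_mem' s g := by simp
  smul_mem' c a ha s g := by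
    rw [Pi.smul_apply, Pi.smul_apply, ha, smul_eq_mul, smul_eq_mul, mul_assoc]

lemma mem_W {h : G → EF} : h ∈ W H ν ↔ ∀ (s : G) (g : H), h (s * g) = h s * psi H ν g := Iff.rfl

lemma out_inv_mul_mem (s : G) : ((QuotientGroup.mk s : G ⧸ H).out)⁻¹ * s ∈ H := by
  rw [← QuotientGroup.eq, QuotientGroup.out_eq']

/-- The `H`-part of an element with respect to the chosen transversal. -/
noncomputable def gam (s : G) : H := ⟨_, out_inv_mul_mem H s⟩

lemma mk_mul (s : G) (g : H) : (QuotientGroup.mk (s * g) : G ⧸ H) = QuotientGroup.mk s := by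
  rw [QuotientGroup.eq]; simp

lemma gam_mul (s : G) (g : H) : gam H (s * g) = gam H s * g := by
  apply Subtype.ext
  simp only [gam, Subgroup.coe_mul, mk_mul, mul_assoc]

lemma out_mul_gam (s : G) : (QuotientGroup.mk s : G ⧸ H).out * (gam H s : G) = s := by
  simp [gam]

lemma gam_out (q : G ⧸ H) : gam H q.out = 1 := by
  apply Subtype.ext
  simp only [gam, QuotientGroup.out_eq', inv_mul_cancel, Subgroup.coe_one]

/-- `W` is the space of functions on the cosets. -/
noncomputable def Wequiv : W H ν ≃ₗ[EF] ((G ⧸ H) → EF) where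
  toFun h := fun q => (h : G → EF) q.out
  map_add' _ _ := rfl
  map_smul' _ _ := rfl
  invFun k := ⟨fun s => k (QuotientGroup.mk s) * psi H ν (gam H s), fun s g => by
    change k (QuotientGroup.mk (s * g)) * psi H ν (gam H (s * g)) =
      k (QuotientGroup.mk s) * psi H ν (gam H s) * psi H ν g
    rw [mk_mul, gam_mul, psi_mul, mul_assoc]⟩
  left_inv h := by
    apply Subtype.ext
    ext s
    change (h : G → EF) (QuotientGroup.mk s : G ⧸ H).out * psi H ν (gam H s) = (h : G → EF) s
    rw [← h.2, out_mul_gam]
  right_inv k := by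
    ext q
    change k (QuotientGroup.mk q.out) * psi H ν (gam H q.out) = k q
    rw [gam_out, psi_one, mul_one, QuotientGroup.out_eq']

lemma Wequiv_apply (h : W H ν) (q : G ⧸ H) : Wequiv H ν h q = (h : G → EF) q.out := rfl

lemma Wequiv_symm_apply (k : (G ⧸ H) → EF) (s : G) :
    ((Wequiv H ν).symm k : G → EF) s = k (QuotientGroup.mk s) * psi H ν (gam H s) := rfl

lemma lin_mem_W {h : G → EF} (hh : h ∈ W H ν) (y : MonoidAlgebra ℚ G) (s : G) (g : H) :
    lin h (y * single (s * g) 1) = lin h (y * single s 1) * psi H ν g := by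
  have : (lin h) ∘ₗ (LinearMap.mulRight ℚ (single (s * (g : G)) 1)) =
      (LinearMap.mulRight ℚ (psi H ν g)) ∘ₗ (lin h) ∘ₗ (LinearMap.mulRight ℚ (single s 1)) := by
    apply hom_ext'
    intro t
    simp only [LinearMap.comp_apply, LinearMap.mulRight_apply, single_mul_single, lin_single,
      one_smul, mul_one]
    rw [← mul_assoc, hh]
  exact congrArg (fun F => F y) this

lemma act_mem_W {h : G → EF} (hh : h ∈ W H ν) (y : MonoidAlgebra ℚ G) : act y h ∈ W H ν :=
  fun s g => lin_mem_W H ν hh y s g

/-- The action on `W`. -/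
noncomputable def actW (y : MonoidAlgebra ℚ G) : W H ν →ₗ[EF] W H ν :=
  (act y).restrict (fun _ hh => act_mem_W H ν hh y)

lemma actW_coe (y : MonoidAlgebra ℚ G) (h : W H ν) : (actW H ν y h : G → EF) = act y h := rfl

/-- The kernel of the degree, as a subgroup of `G`. -/
def NN : Subgroup G := (ν.ker).map H.subtype

lemma mem_NN {g : H} (h : ν g = 1) : (g : G) ∈ NN H ν := ⟨g, h, rfl⟩

/-- Elements of the ideal of `NN` are killed by `W`. -/
lemma lin_eq_zero_of_mem {h : G → EF} (hh : h ∈ W H ν) {y : MonoidAlgebra ℚ G}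
    (hy : y ∈ augIdeal (NN H ν : Set G)) : lin h y = 0 := by
  unfold augIdeal at hy
  induction hy using Submodule.span_induction with
  | mem x hx =>
    obtain ⟨_, ⟨n, hn, rfl⟩, rfl⟩ := hx
    have h1 := hh 1 n
    rw [one_mul] at h1
    have h2 : psi H ν n = 1 := by
      have : ν n = 1 := hn
      simp [psi, this]
    simp only [Subgroup.coe_subtype, map_sub, lin_single, one_smul, one_def, h1, h2, mul_one,
      sub_self]
  | zero => simp
  | add x y _ _ hx hy => rw [map_add, hx, hy, add_zero]
  | smul a x hx ih =>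
    clear ih
    have : ∀ x ∈ (Submodule.span (MonoidAlgebra ℚ G)
        ((fun n => single n 1 - 1) '' (NN H ν : Set G)) :
          Submodule (MonoidAlgebra ℚ G) (MonoidAlgebra ℚ G)),
        ∀ h ∈ W H ν, lin h x = 0 := by
      intro x hx
      refine Submodule.span_induction
        (p := fun x _ => ∀ h ∈ W H ν, lin h x = 0) ?_ ?_ ?_ ?_ hx
      · rintro _ ⟨_, ⟨n, hn, rfl⟩, rfl⟩ h hh
        have h1 := hh 1 n
        rw [one_mul] at h1
        have h2 : psi H ν n = 1 := by
          have : ν n = 1 := hn
          simp [psi, this]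
        simp only [Subgroup.coe_subtype, map_sub, lin_single, one_smul, one_def, h1, h2, mul_one,
          sub_self]
      · intro h _; simp
      · intro x y _ _ hx hy h hh
        rw [map_add, hx h hh, hy h hh, add_zero]
      · intro a x _ hx h hh
        rw [smul_eq_mul, ← lin_act]
        exact hx _ (act_mem_W H ν hh a)
    rw [smul_eq_mul, ← lin_act]
    exact this x hx _ (act_mem_W H ν hh a)

/-- Separation: an element killed by `W` lies in the ideal of `NN`. -/
lemma mem_of_lin_eq_zero (gt : H) (hgt : ν gt = Multiplicative.ofAdd 1) [H.FiniteIndex]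
    {y : MonoidAlgebra ℚ G} (hy : ∀ h ∈ W H ν, lin h y = 0) :
    y ∈ augIdeal (NN H ν : Set G) := by
  classical
  -- degree of the H-part
  set j : G → ℤ := fun g => Multiplicative.toAdd (ν (gam H g)) with hj
  set nf : (G ⧸ H) → ℤ → G := fun q k => q.out * ((gt ^ k : H) : G) with hnf
  have hνz : ∀ k : ℤ, ν (gt ^ k) = Multiplicative.ofAdd k := by
    intro k
    rw [map_zpow, hgt, ← ofAdd_zsmul, smul_eq_mul, mul_one]
  -- each group element is congruent to its normal form
  have h1 : ∀ g : G, (single g 1 - single (nf (QuotientGroup.mk g) (j g)) 1 : MonoidAlgebra ℚ G) ∈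
      augIdeal (NN H ν : Set G) := by
    intro g
    set m : H := (gt ^ (j g))⁻¹ * gam H g with hm
    have hm1 : ν m = 1 := by
      rw [hm, map_mul, map_inv, hνz]
      simp [hj]
    have e : g = nf (QuotientGroup.mk g) (j g) * (m : G) := by
      rw [hnf, hm]
      simp only [Subgroup.coe_mul, Subgroup.coe_inv]
      conv_lhs => rw [← out_mul_gam H g]
      group
    have e2 : (single g 1 - single (nf (QuotientGroup.mk g) (j g)) 1 : MonoidAlgebra ℚ G) =
        (single (nf (QuotientGroup.mk g) (j g)) 1 : MonoidAlgebra ℚ G) •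
          (single (m : G) 1 - 1 : MonoidAlgebra ℚ G) := by
      rw [smul_eq_mul, mul_sub, single_mul_single, mul_one, mul_one, ← e]
    rw [e2]
    exact Submodule.smul_mem _ _ (Submodule.subset_span ⟨m, mem_NN H ν hm1, rfl⟩)
  set f : G → MonoidAlgebra ℚ G := fun g => single (nf (QuotientGroup.mk g) (j g)) 1 with hf
  have h2 : ∀ y : MonoidAlgebra ℚ G, y - lin f y ∈ augIdeal (NN H ν : Set G) := by
    intro y
    induction y using MonoidAlgebra.induction_linear with
    | zero => simp
    | add a b ha hb =>
      have e : a + b - lin f (a + b) = (a - lin f a) + (b - lin f b) := by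
        rw [map_add]; abel
      rw [e]
      exact Submodule.add_mem _ ha hb
    | single g a =>
      have e : (single g a : MonoidAlgebra ℚ G) - lin f (single g a) =
          (single (1 : G) a : MonoidAlgebra ℚ G) • (single g 1 - f g) := by
        rw [lin_single, smul_eq_mul, mul_sub, single_mul_single, one_mul, mul_one, hf]
        simp only [single_mul_single, one_mul, mul_one, smul_single, smul_eq_mul]
      rw [e]
      exact Submodule.smul_mem _ _ (h1 g)
  -- the normal form map factors through Laurent polynomials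
  let Q1 : MonoidAlgebra ℚ G →ₗ[ℚ] ((G ⧸ H) → LaurentPolynomial ℚ) :=
    lin (fun g => Pi.single (QuotientGroup.mk g) (T (j g)))
  let ζ : (G ⧸ H) → (LaurentPolynomial ℚ →ₗ[ℚ] MonoidAlgebra ℚ G) := fun q =>
    (Finsupp.linearCombination ℚ (fun k : ℤ => (single (nf q k) 1 : MonoidAlgebra ℚ G))) ∘ₗ
      (AddMonoidAlgebra.coeffLinearEquiv ℚ).toLinearMap
  have hζ : ∀ q k, ζ q (T k) = single (nf q k) 1 := by
    intro q k
    change (Finsupp.linearCombination ℚ (fun k : ℤ => (single (nf q k) 1 : MonoidAlgebra ℚ G)))
      (Finsupp.single k 1) = _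
    rw [Finsupp.linearCombination_single, one_smul]
  have : Fintype (G ⧸ H) := Fintype.ofFinite _
  have h3 : lin f = (∑ q, (ζ q) ∘ₗ (LinearMap.proj q)) ∘ₗ Q1 := by
    apply hom_ext'
    intro g
    simp only [lin_single, one_smul, LinearMap.comp_apply, LinearMap.sum_apply,
      LinearMap.proj_apply, Q1]
    rw [Finset.sum_eq_single (QuotientGroup.mk g : G ⧸ H)]
    · rw [Pi.single_eq_same, hζ]
    · intro b _ hb
      rw [Pi.single_eq_of_ne hb, map_zero]
    · intro h; exact absurd (Finset.mem_univ _) h
  have h4 : Q1 y = 0 := by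
    ext1 q
    apply IsFractionRing.injective (LaurentPolynomial ℚ) EF
    rw [Pi.zero_apply, map_zero]
    have e : (IsScalarTower.toAlgHom ℚ (LaurentPolynomial ℚ) EF).toLinearMap ∘ₗ
        (LinearMap.proj q) ∘ₗ Q1 =
        lin ((Wequiv H ν).symm (Pi.single q 1) : G → EF) := by
      apply hom_ext'
      intro g
      simp only [LinearMap.comp_apply, LinearMap.proj_apply, Q1, lin_single, one_smul,
        AlgHom.toLinearMap_apply, IsScalarTower.coe_toAlgHom', Wequiv_symm_apply]
      by_cases hq : q = QuotientGroup.mk g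
      · subst hq
        rw [Pi.single_eq_same, Pi.single_eq_same, one_mul]
        rfl
      · rw [Pi.single_eq_of_ne hq, Pi.single_eq_of_ne (Ne.symm hq), map_zero, zero_mul]
    have e2 := congrArg (fun F => F y) e
    simp only [LinearMap.comp_apply, LinearMap.proj_apply, AlgHom.toLinearMap_apply,
      IsScalarTower.coe_toAlgHom'] at e2
    rw [e2]
    exact hy _ ((Wequiv H ν).symm (Pi.single q 1)).2
  have h5 := h2 y
  rw [h3, LinearMap.comp_apply, h4, map_zero, sub_zero] at h5
  exact h5

end

end MP0c5642
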