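import Mathlib
import Pool.Agent.Lib.MP_0c5642_al.Rank

/-! Existence of a nonzero two-dimensional cycle in the infinite cyclic cover. -/

namespace MP0c5642

open MonoidAlgebra LaurentPolynomial

theorem exists_z {G : Type*} [Group G] (H : Subgroup G) [H.FiniteIndex]
    (ν : H →* Multiplicative ℤ) (δ : H → LaurentPolynomial ℚ)
    (hδ : ∀ g h, δ (g * h) = δ g * T (Multiplicative.toAdd (ν h)) + δ h)
    (n0 : H) (hn0 : ν n0 = 1) (hδn0 : δ n0 ≠ 0) (gt : H) (hgt : ν gt = Multiplicative.ofAdd 1)
    {X : Fin 2 → G} (hX : Subgroup.closure (Set.range X) = ⊤) {Dr : Fin 2 → MonoidAlgebra ℚ G}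
    (H1 : ∑ x, (single (X x) 1 - 1) * Dr x = 0) :
    ∃ z, (∀ x, Dr x * z ∈ augIdeal (NN H ν : Set G)) ∧ z ∉ augIdeal (NN H ν : Set G) := by
  classical
  let bet : G → EF := fun s => algebraMap (LaurentPolynomial ℚ) EF (δ (gam H s))
  have hbet : ∀ (s : G) (g : H), bet (s * g) = bet s * psi H ν g +
      algebraMap (LaurentPolynomial ℚ) EF (δ g) := by
    intro s g
    simp only [bet, gam_mul, hδ, map_add, map_mul, psi]
  have hact1 : ∀ (x : Fin 2) (k : G → EF) (s : G),
      act (single (X x) 1 - 1) k s = k (X x * s) - k s := by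
    intro x k s
    rw [act_apply, sub_mul, one_mul, single_mul_single, mul_one, map_sub, lin_single, lin_single,
      one_smul, one_smul]
  have hinv : ∀ k : G → EF, (∀ x, act (single (X x) 1 - 1) k = 0) → ∀ s, k s = k 1 := by
    intro k hk
    have h1 : ∀ x s, k (X x * s) = k s := by
      intro x s
      have := congrArg (fun F => F s) (hk x)
      rw [hact1] at this
      exact sub_eq_zero.mp this
    have h2 : ∀ g ∈ Subgroup.closure (Set.range X), ∀ s, k (g * s) = k s := by
      intro g hg
      refine Subgroup.closure_induction (p := fun g _ => ∀ s, k (g * s) = k s) ?_ ?_ ?_ ?_ hg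
      · rintro _ ⟨x, rfl⟩ s; exact h1 x s
      · intro s; rw [one_mul]
      · intro a b _ _ ha hb s; rw [mul_assoc, ha, hb]
      · intro a _ ha s
        have := ha (a⁻¹ * s)
        rw [mul_inv_cancel_left] at this
        exact this.symm
    intro s
    have := h2 s (by rw [hX]; trivial) 1
    rw [mul_one] at this
    exact this
  let Δ : Fin 2 → W H ν := fun x => ⟨act (single (X x) 1 - 1) bet, fun s g => by
    rw [hact1, hact1, ← mul_assoc, hbet, hbet]; ring⟩
  let Φ : (Fin 2 → W H ν) →ₗ[EF] W H ν :=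
    ∑ x, (actW H ν (Dr x)) ∘ₗ (LinearMap.proj x)
  let B : W H ν →ₗ[EF] (Fin 2 → W H ν) :=
    LinearMap.pi (fun x => actW H ν (single (X x) 1 - 1))
  let Ext : (W H ν × EF) →ₗ[EF] (Fin 2 → W H ν) :=
    B.coprod (LinearMap.toSpanSingleton EF _ Δ)
  have hExt : ∀ (p : W H ν × EF) (x : Fin 2),
      ((Ext p x : W H ν) : G → EF) = act (single (X x) 1 - 1) ((p.1 : G → EF) + p.2 • bet) := by
    intro p x
    rw [map_add, map_smul]
    rfl
  have hΦExt : ∀ p, Φ (Ext p) = 0 := by
    intro p
    apply Subtype.ext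
    have e : ((Φ (Ext p) : W H ν) : G → EF) =
        ∑ x, act (Dr x) ((Ext p x : W H ν) : G → EF) := by
      simp only [Φ, LinearMap.sum_apply, LinearMap.comp_apply, LinearMap.proj_apply,
        Submodule.coe_sum, actW_coe]
    rw [e]
    simp only [hExt, act_act]
    rw [act_sum, H1]
    ext s
    simp [act_apply]
  have hinj : Function.Injective Ext := by
    rw [injective_iff_map_eq_zero]
    intro p hp
    set k : G → EF := (p.1 : G → EF) + p.2 • bet with hk
    have hk0 : ∀ x, act (single (X x) 1 - 1) k = 0 := by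
      intro x
      rw [hk, ← hExt, hp]
      rfl
    have hconst := hinv k hk0
    have hkmul : ∀ (s : G) (g : H), k (s * g) = k s * psi H ν g +
        p.2 * algebraMap (LaurentPolynomial ℚ) EF (δ g) := by
      intro s g
      simp only [hk, Pi.add_apply, Pi.smul_apply, smul_eq_mul, hbet]
      rw [(mem_W H ν).mp p.1.2 s g]
      ring
    have hc : p.2 = 0 := by
      have h1 := hkmul 1 n0
      rw [hconst (1 * n0), psi, hn0] at h1
      simp only [toAdd_one, T_zero, map_one, mul_one] at h1
      have h2 : p.2 * algebraMap (LaurentPolynomial ℚ) EF (δ n0) = 0 := by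
        have := h1
        linear_combination -h1
      rcases mul_eq_zero.mp h2 with h | h
      · exact h
      · exfalso
        apply hδn0
        apply IsFractionRing.injective (LaurentPolynomial ℚ) EF
        rw [h, map_zero]
    have hκ : k 1 = 0 := by
      have h1 := hkmul 1 gt
      rw [hconst (1 * gt), psi, hgt, hc, zero_mul, add_zero, toAdd_ofAdd] at h1
      by_contra hne
      have h2 : algebraMap (LaurentPolynomial ℚ) EF (T 1) = 1 := by
        have h3 : k 1 * algebraMap (LaurentPolynomial ℚ) EF (T 1) = k 1 * 1 := by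
          rw [mul_one]; exact h1.symm
        exact mul_left_cancel₀ hne h3
      have h4 : (T 1 : LaurentPolynomial ℚ) = 1 := by
        apply IsFractionRing.injective (LaurentPolynomial ℚ) EF
        rw [h2, map_one]
      have h5 := congrArg (fun P : LaurentPolynomial ℚ => P.coeff 0) h4
      rw [← T_zero] at h5
      simp only [T_apply] at h5
      norm_num at h5
    apply Prod.ext
    · apply Subtype.ext
      ext s
      have h1 : k s = 0 := by rw [hconst s, hκ]
      rw [hk, hc, zero_smul, add_zero] at h1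
      rw [h1]; rfl
    · exact hc
  -- dimensions
  have : Fintype (G ⧸ H) := Fintype.ofFinite _
  have : FiniteDimensional EF (W H ν) := Module.Finite.equiv (Wequiv H ν).symm
  have hdW : Module.finrank EF (W H ν) = Fintype.card (G ⧸ H) := by
    rw [(Wequiv H ν).finrank_eq, Module.finrank_fintype_fun_eq_card]
  have hd1 : Module.finrank EF (W H ν × EF) = Fintype.card (G ⧸ H) + 1 := by
    rw [Module.finrank_prod, hdW, Module.finrank_self]
  have hd2 : Module.finrank EF (Fin 2 → W H ν) = 2 * Fintype.card (G ⧸ H) := by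
    rw [Module.finrank_pi_fintype, Finset.sum_const, hdW]; simp
  have hker : Fintype.card (G ⧸ H) + 1 ≤ Module.finrank EF (LinearMap.ker Φ) := by
    rw [← hd1, ← LinearMap.finrank_range_of_inj hinj]
    apply Submodule.finrank_mono
    rintro _ ⟨p, rfl⟩
    exact hΦExt p
  have hrn := LinearMap.finrank_range_add_finrank_ker Φ
  have hrange : LinearMap.range Φ < ⊤ := by
    rw [lt_top_iff_ne_top]
    intro htop
    rw [htop, finrank_top, hdW, hd2] at hrn
    omega
  obtain ⟨lam, hlam0, hlam⟩ := Submodule.exists_le_ker_of_lt_top _ hrange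
  -- clearing denominators
  obtain ⟨b, hb⟩ := IsLocalization.exist_integer_multiples_of_finite
    (nonZeroDivisors (LaurentPolynomial ℚ))
    (fun q : G ⧸ H => lam ((Wequiv H ν).symm (Pi.single q 1)))
  choose P hP using hb
  have hb0 : algebraMap (LaurentPolynomial ℚ) EF (b : LaurentPolynomial ℚ) ≠ 0 := by
    intro h
    have : (b : LaurentPolynomial ℚ) = 0 := by
      apply IsFractionRing.injective (LaurentPolynomial ℚ) EF
      rw [h, map_zero]
    exact nonZeroDivisors.ne_zero b.2 this
  let ζ : (G ⧸ H) → (LaurentPolynomial ℚ →ₗ[ℚ] MonoidAlgebra ℚ G) := fun q =>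
    (Finsupp.linearCombination ℚ
      (fun k : ℤ => (single (q.out * ((gt ^ k : H) : G)) 1 : MonoidAlgebra ℚ G))) ∘ₗ
      (AddMonoidAlgebra.coeffLinearEquiv ℚ).toLinearMap
  have hζ : ∀ q k, ζ q (AddMonoidAlgebra.single k 1) =
      single (q.out * ((gt ^ k : H) : G)) 1 := by
    intro q k
    change (Finsupp.linearCombination ℚ
      (fun k : ℤ => (single (q.out * ((gt ^ k : H) : G)) 1 : MonoidAlgebra ℚ G)))
      (Finsupp.single k 1) = _
    rw [Finsupp.linearCombination_single, one_smul]
  have hνz : ∀ k : ℤ, ν (gt ^ k) = Multiplicative.ofAdd k := by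
    intro k
    rw [map_zpow, hgt, ← ofAdd_zsmul, smul_eq_mul, mul_one]
  have hlinζ : ∀ (h : W H ν) (q : G ⧸ H) (p : LaurentPolynomial ℚ),
      lin (h : G → EF) (ζ q p) =
        (h : G → EF) q.out * algebraMap (LaurentPolynomial ℚ) EF p := by
    intro h q p
    have e : (lin (h : G → EF)) ∘ₗ (ζ q) = (LinearMap.mulLeft ℚ ((h : G → EF) q.out)) ∘ₗ
        (IsScalarTower.toAlgHom ℚ (LaurentPolynomial ℚ) EF).toLinearMap := by
      apply AddMonoidAlgebra.lhom_ext'
      intro k
      apply LinearMap.ext_ring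
      change lin (h : G → EF) (ζ q (AddMonoidAlgebra.single k 1)) =
        (h : G → EF) q.out * algebraMap (LaurentPolynomial ℚ) EF (AddMonoidAlgebra.single k 1)
      rw [hζ, lin_single, one_smul, (mem_W H ν).mp h.2, psi, hνz, toAdd_ofAdd]
      rfl
    exact congrArg (fun F => F p) e
  set z : MonoidAlgebra ℚ G := ∑ q, ζ q (P q) with hz
  have hlamz : ∀ h : W H ν, lin (h : G → EF) z =
      algebraMap (LaurentPolynomial ℚ) EF (b : LaurentPolynomial ℚ) * lam h := by
    intro h
    have e1 : h = ∑ q, ((h : G → EF) q.out) • (Wequiv H ν).symm (Pi.single q 1) := by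
      apply (Wequiv H ν).injective
      rw [map_sum]
      simp only [map_smul, LinearEquiv.apply_symm_apply]
      ext q
      rw [Finset.sum_apply, Finset.sum_eq_single q]
      · simp [Wequiv_apply]
      · intro q' _ hq'
        rw [Pi.smul_apply, Pi.single_eq_of_ne (Ne.symm hq'), smul_zero]
      · intro hq; exact absurd (Finset.mem_univ _) hq
    have e2 : lam h = ∑ q, ((h : G → EF) q.out) * lam ((Wequiv H ν).symm (Pi.single q 1)) := by
      conv_lhs => rw [e1]
      rw [map_sum]
      simp only [map_smul, smul_eq_mul]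
    rw [hz, map_sum, e2, Finset.mul_sum]
    apply Finset.sum_congr rfl
    intro q _
    rw [hlinζ, hP q, Algebra.smul_def]
    ring
  refine ⟨z, fun x => ?_, fun hmem => ?_⟩
  · apply mem_of_lin_eq_zero H ν gt hgt
    intro h hh
    rw [← lin_act]
    have e1 := hlamz (actW H ν (Dr x) ⟨h, hh⟩)
    rw [actW_coe] at e1
    rw [e1]
    have e2 : actW H ν (Dr x) ⟨h, hh⟩ = Φ (Pi.single x ⟨h, hh⟩) := by
      simp only [Φ, LinearMap.sum_apply, LinearMap.comp_apply, LinearMap.proj_apply]
      rw [Finset.sum_eq_single x]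
      · rw [Pi.single_eq_same]
      · intro y _ hy
        rw [Pi.single_eq_of_ne hy, map_zero]
      · intro hx; exact absurd (Finset.mem_univ _) hx
    have e3 : lam (actW H ν (Dr x) ⟨h, hh⟩) = 0 := by
      rw [e2]
      exact hlam ⟨_, rfl⟩
    rw [e3, mul_zero]
  · apply hlam0
    ext h
    have e1 := hlamz h
    rw [lin_eq_zero_of_mem H ν h.2 hmem] at e1
    rcases mul_eq_zero.mp e1.symm with h1 | h1
    · exact absurd h1 hb0
    · rw [h1]; rfl

end MP0c5642
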