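import Mathlib
import Pool.Agent.Lib.MP_0c5642_al.Fox

/-! Fox calculus of a one-relator group: exactness and non-vanishing. -/

namespace MP0c5642

open MonoidAlgebra

/-- A connected part of a reduced word is reduced. -/
lemma red_sub {L B : List (Fin 2 × Bool)} (h : FreeGroup.IsReduced L) (hB : B <:+: L) :
    FreeGroup.IsReduced B := by
  obtain ⟨s, t, rfl⟩ := hB
  have h1 : List.IsChain (fun a b : Fin 2 × Bool => a.1 = b.1 → a.2 = b.2) (s ++ B ++ t) := h
  exact (List.isChain_append.1 (List.isChain_append.1 h1).1).2.1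

/-- `D x` is the (right) Fox derivative with respect to the generator `x`, with values in
the rational group algebra of the quotient group `G`. -/
structure IsFox {G : Type*} [Group G] (φ : FreeGroup (Fin 2) →* G)
    (D : Fin 2 → FreeGroup (Fin 2) → MonoidAlgebra ℚ G) : Prop where
  mul : ∀ x g h, D x (g * h) = D x g * single (φ h) 1 + D x h
  gen : ∀ x a, D x (FreeGroup.of a) = if a = x then 1 else 0

lemma exists_isFox {G : Type*} [Group G] (φ : FreeGroup (Fin 2) →* G) :
    ∃ D, IsFox φ D := by
  have h : ∀ x : Fin 2, ∃ f : FreeGroup (Fin 2) → MonoidAlgebra ℚ G,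
      (∀ g h, f (g * h) = f g * ((MonoidAlgebra.of ℚ G).comp φ) h + f h) ∧
      ∀ a, f (FreeGroup.of a) = if a = x then 1 else 0 := fun x =>
    exists_right_crossed _ _
  choose D h1 h2 using h
  exact ⟨D, ⟨fun x g h => by simpa using h1 x g h, fun x a => h2 x a⟩⟩

section
variable {G : Type*} [Group G] {φ : FreeGroup (Fin 2) →* G}
  {D : Fin 2 → FreeGroup (Fin 2) → MonoidAlgebra ℚ G} (hD : IsFox φ D)
include hD

lemma IsFox.one (x : Fin 2) : D x 1 = 0 := by
  have := hD.mul x 1 1
  simp only [mul_one, map_one] at this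
  rw [← one_def, mul_one] at this
  simpa using this

lemma IsFox.inv (x : Fin 2) (g : FreeGroup (Fin 2)) :
    D x g⁻¹ = - (D x g * single (φ g⁻¹) 1) := by
  have := hD.mul x g g⁻¹
  rw [mul_inv_cancel, hD.one] at this
  rw [eq_neg_iff_add_eq_zero, add_comm]
  exact this.symm

lemma IsFox.fundamental (g : FreeGroup (Fin 2)) :
    ∑ x, (single (φ (FreeGroup.of x)) 1 - 1) * D x g = single (φ g) 1 - 1 := by
  refine right_crossed_ext ((MonoidAlgebra.of ℚ G).comp φ)
    (f := fun g => ∑ x, (single (φ (FreeGroup.of x)) 1 - 1) * D x g)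
    (f' := fun g => single (φ g) 1 - 1) ?_ ?_ ?_ g
  · intro g h
    simp only [hD.mul, mul_add, Finset.sum_add_distrib, Finset.sum_mul, mul_assoc,
      MonoidHom.comp_apply, MonoidAlgebra.of_apply]
  · intro g h
    simp only [MonoidHom.comp_apply, MonoidAlgebra.of_apply, map_mul, sub_mul,
      single_mul_single, one_mul, mul_one]
    abel
  · intro a
    simp only [hD.gen, mul_ite, mul_one, mul_zero, Finset.sum_ite_eq, Finset.mem_univ, if_true]

lemma IsFox.of_mem_normalClosure {r : FreeGroup (Fin 2)} (hr : φ r = 1) :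
    ∀ n ∈ Subgroup.normalClosure ({r} : Set (FreeGroup (Fin 2))),
      φ n = 1 ∧ ∃ w, ∀ x, D x n = D x r * w := by
  intro n hn
  refine Subgroup.closure_induction
    (p := fun n _ => φ n = 1 ∧ ∃ w, ∀ x, D x n = D x r * w) ?_ ?_ ?_ ?_ hn
  · intro y hy
    rw [Group.mem_conjugatesOfSet_iff] at hy
    obtain ⟨r', hr', hc⟩ := hy
    rw [Set.mem_singleton_iff] at hr'
    subst hr'
    obtain ⟨g, hg⟩ := isConj_iff.mp hc
    refine ⟨by rw [← hg, map_mul, map_mul, hr, mul_one, map_inv, mul_inv_cancel], ?_⟩
    refine ⟨single (φ g⁻¹) 1, fun x => ?_⟩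
    rw [← hg, hD.mul, hD.mul, hr, hD.inv x g, ← one_def, mul_one, add_mul]
    abel
  · exact ⟨map_one _, 0, fun x => by rw [hD.one, mul_zero]⟩
  · rintro y z _ _ ⟨h1, w1, h2⟩ ⟨h3, w3, h4⟩
    refine ⟨by rw [map_mul, h1, h3, mul_one], w1 + w3, fun x => ?_⟩
    rw [hD.mul, h3, ← one_def, mul_one, h2, h4, mul_add]
  · rintro y _ ⟨h1, w1, h2⟩
    refine ⟨by rw [map_inv, h1, inv_one], -w1, fun x => ?_⟩
    rw [hD.inv, map_inv, h1, inv_one, ← one_def, mul_one, h2, mul_neg]

/-- Exactness at the middle of the Fox complex. -/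
lemma IsFox.exact {r : FreeGroup (Fin 2)} (hφ : Function.Surjective φ)
    (hker : φ.ker = Subgroup.normalClosure ({r} : Set (FreeGroup (Fin 2))))
    (u : Fin 2 → MonoidAlgebra ℚ G)
    (hu : ∑ x, (single (φ (FreeGroup.of x)) 1 - 1) * u x = 0) :
    ∃ w, ∀ x, u x = D x r * w := by
  have hr : φ r = 1 := by
    have : r ∈ φ.ker := by rw [hker]; exact Subgroup.subset_normalClosure rfl
    exact this
  choose s hs using hφ
  have hn : ∀ (y : Fin 2) (g : G), (FreeGroup.of y * s g)⁻¹ * s (φ (FreeGroup.of y) * g) ∈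
      Subgroup.normalClosure ({r} : Set (FreeGroup (Fin 2))) := by
    intro y g
    rw [← hker, MonoidHom.mem_ker, map_mul, map_inv, map_mul, hs, hs, inv_mul_cancel]
  have hw := fun y g => (hD.of_mem_normalClosure hr _ (hn y g)).2
  choose w hw using hw
  have hτ : ∀ (x y : Fin 2) (g : G), D x (s (φ (FreeGroup.of y) * g)) - D x (s g) =
      (if y = x then single g 1 else 0) + D x r * w y g := by
    intro x y g
    have e : s (φ (FreeGroup.of y) * g) =
        (FreeGroup.of y * s g) * ((FreeGroup.of y * s g)⁻¹ * s (φ (FreeGroup.of y) * g)) := by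
      group
    have e2 : D x (s (φ (FreeGroup.of y) * g)) = D x (FreeGroup.of y * s g) +
        D x ((FreeGroup.of y * s g)⁻¹ * s (φ (FreeGroup.of y) * g)) := by
      conv_lhs => rw [e]
      rw [hD.mul, (hD.of_mem_normalClosure hr _ (hn y g)).1, ← one_def, mul_one]
    rw [e2, hw, hD.mul, hs, hD.gen]
    split_ifs
    · rw [one_mul]; abel
    · rw [zero_mul]; abel
  refine ⟨-(∑ y, lin (w y) (u y)), fun x => ?_⟩
  have h0 : lin (fun g => D x (s g)) (∑ y, (single (φ (FreeGroup.of y)) 1 - 1) * u y) = 0 := by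
    rw [hu, map_zero]
  rw [map_sum] at h0
  have h1 : ∀ y : Fin 2, lin (fun g => D x (s g)) ((single (φ (FreeGroup.of y)) 1 - 1) * u y) =
      (if y = x then u y else 0) + D x r * lin (w y) (u y) := by
    intro y
    rw [lin_diff_left (fun g => D x (s g)) (φ (FreeGroup.of y)) _ (hτ x y) (u y)]
    have : lin (fun g => (if y = x then single g (1:ℚ) else 0) + D x r * w y g) =
        (if y = x then LinearMap.id else 0) + (LinearMap.mulLeft ℚ (D x r)) ∘ₗ lin (w y) := by
      apply hom_ext'
      intro g
      simp only [lin_single, one_smul, LinearMap.add_apply, LinearMap.comp_apply,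
        LinearMap.mulLeft_apply]
      split_ifs <;> simp
    rw [this]
    simp only [LinearMap.add_apply, LinearMap.comp_apply, LinearMap.mulLeft_apply]
    split_ifs <;> simp
  simp only [h1, Finset.sum_add_distrib, Finset.sum_ite_eq', Finset.mem_univ, if_true,
    ← Finset.mul_sum] at h0
  rw [mul_neg, eq_neg_iff_add_eq_zero]
  exact h0

/-- The support of a Fox derivative of a word. -/
lemma IsFox.support_mk (x : Fin 2) : ∀ (L : List (Fin 2 × Bool)) (g : G),
    (D x (FreeGroup.mk L)).coeff g ≠ 0 →
      (∃ L1 L2, L = L1 ++ (x, true) :: L2 ∧ φ (FreeGroup.mk L2) = g) ∨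
      (∃ L1 L2, L = L1 ++ (x, false) :: L2 ∧ φ (FreeGroup.mk ((x, false) :: L2)) = g) := by
  classical
  intro L
  induction L with
  | nil =>
    intro g hg
    exfalso
    apply hg
    have : FreeGroup.mk ([] : List (Fin 2 × Bool)) = 1 := rfl
    rw [this, hD.one]
    simp
  | cons p L ih =>
    intro g hg
    obtain ⟨y, b⟩ := p
    have hsplit : FreeGroup.mk ((y, b) :: L) = FreeGroup.mk [(y, b)] * FreeGroup.mk L := by
      rw [FreeGroup.mul_mk]; rfl
    by_cases h2 : (D x (FreeGroup.mk L)).coeff g = 0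
    · have h3 : (D x (FreeGroup.mk [(y, b)]) * single (φ (FreeGroup.mk L)) 1).coeff g ≠ 0 := by
        intro h4
        apply hg
        rw [hsplit, hD.mul]
        simp only [coeff_add, Finsupp.add_apply, h4, h2, add_zero]
      cases b with
      | true =>
        have e : FreeGroup.mk [(y, true)] = FreeGroup.of y := rfl
        rw [e, hD.gen] at h3
        by_cases hyx : y = x
        · subst hyx
          rw [if_pos rfl, one_mul] at h3
          left
          refine ⟨[], L, rfl, ?_⟩
          by_contra hne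
          apply h3
          simp [coeff_single, hne]
        · rw [if_neg hyx, zero_mul] at h3
          simp at h3
      | false =>
        have e : FreeGroup.mk [(y, false)] = (FreeGroup.of y)⁻¹ := rfl
        rw [e, hD.inv, hD.gen] at h3
        by_cases hyx : y = x
        · subst hyx
          rw [if_pos rfl, one_mul, neg_mul, single_mul_single, mul_one, ← map_mul] at h3
          right
          refine ⟨[], L, rfl, ?_⟩
          by_contra hne
          apply h3
          rw [hsplit, e] at hne
          rw [coeff_neg, Finsupp.neg_apply, coeff_single, Finsupp.single_apply, if_neg hne,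
            neg_zero]
        · rw [if_neg hyx, zero_mul, neg_zero, zero_mul] at h3
          simp at h3
    · rcases ih g h2 with ⟨L1, L2, h, h'⟩ | ⟨L1, L2, h, h'⟩
      · left; exact ⟨(y, b) :: L1, L2, by rw [h]; rfl, h'⟩
      · right; exact ⟨(y, b) :: L1, L2, by rw [h]; rfl, h'⟩

/-- The Fox derivatives of the relator do not all vanish if the relator is nontrivial. -/
lemma IsFox.exists_ne_zero {r : FreeGroup (Fin 2)}
    (hker : φ.ker = Subgroup.normalClosure ({r} : Set (FreeGroup (Fin 2))))
    (hr1 : r ≠ 1) : ∃ x, D x r ≠ 0 := by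
  classical
  by_contra hcon
  push Not at hcon
  have hr : φ r = 1 := by
    have : r ∈ φ.ker := by rw [hker]; exact Subgroup.subset_normalClosure rfl
    exact this
  have hzero : ∀ n, φ n = 1 → ∀ x, D x n = 0 := by
    intro n hn x
    have : n ∈ Subgroup.normalClosure ({r} : Set (FreeGroup (Fin 2))) := by
      rw [← hker]; exact hn
    obtain ⟨w, hw⟩ := (hD.of_mem_normalClosure hr n this).2
    rw [hw, hcon, zero_mul]
  -- a shortest nontrivial element of the kernel
  have hex : ∃ k : ℕ, ∃ L : List (Fin 2 × Bool), FreeGroup.IsReduced L ∧ L ≠ [] ∧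
      φ (FreeGroup.mk L) = 1 ∧ L.length = k := by
    refine ⟨r.toWord.length, r.toWord, FreeGroup.isReduced_toWord, ?_, ?_, rfl⟩
    · intro h
      exact hr1 (FreeGroup.toWord_eq_nil_iff.mp h)
    · rw [FreeGroup.mk_toWord]; exact hr
  obtain ⟨L, hLred, hLne, hL1, hLlen⟩ := Nat.find_spec hex
  have hmin : ∀ M : List (Fin 2 × Bool), FreeGroup.IsReduced M → φ (FreeGroup.mk M) = 1 →
      M.length < L.length → M = [] := by
    intro M hM hM1 hlen
    by_contra hne
    rw [hLlen] at hlen
    exact Nat.find_min hex hlen ⟨M, hM, hne, hM1, rfl⟩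
  obtain ⟨⟨x, b⟩, L', rfl⟩ := List.exists_cons_of_ne_nil hLne
  have hsplit : FreeGroup.mk ((x, b) :: L') = FreeGroup.mk [(x, b)] * FreeGroup.mk L' := by
    rw [FreeGroup.mul_mk]; rfl
  have hφapp : ∀ M1 M2 : List (Fin 2 × Bool), φ (FreeGroup.mk (M1 ++ M2)) =
      φ (FreeGroup.mk M1) * φ (FreeGroup.mk M2) := by
    intro M1 M2
    rw [← FreeGroup.mul_mk, map_mul]
  have hD0 := hzero _ hL1 x
  cases b with
  | true =>
    have e : FreeGroup.mk [(x, true)] = FreeGroup.of x := rfl
    rw [hsplit, hD.mul, e, hD.gen, if_pos rfl, one_mul] at hD0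
    have hne : (D x (FreeGroup.mk L')).coeff (φ (FreeGroup.mk L')) ≠ 0 := by
      intro h0
      have := congrArg (fun F => (MonoidAlgebra.coeff F) (φ (FreeGroup.mk L'))) hD0
      simp [coeff_single, h0] at this
    rcases hD.support_mk x L' _ hne with ⟨L1, L2, h, h'⟩ | ⟨L1, L2, h, h'⟩
    · -- the word L1 ++ [(x,true)] is trivial
      have h3 : φ (FreeGroup.mk (L1 ++ [(x, true)])) = 1 := by
        have : φ (FreeGroup.mk L') = φ (FreeGroup.mk (L1 ++ [(x, true)])) * φ (FreeGroup.mk L2) := by
          rw [← hφapp, h]; congr 2; simp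
        rw [h'] at this
        exact mul_eq_right.mp this.symm
      have := hmin (L1 ++ [(x, true)]) (red_sub hLred ⟨[(x, true)], L2, by rw [h]; simp⟩) h3
        (by rw [h]; simp)
      simp at this
    · have h3 : φ (FreeGroup.mk L1) = 1 := by
        have : φ (FreeGroup.mk L') = φ (FreeGroup.mk L1) *
            φ (FreeGroup.mk ((x, false) :: L2)) := by
          rw [← hφapp, h]
        rw [h'] at this
        exact mul_eq_right.mp this.symm
      have h4 := hmin L1 (red_sub hLred ⟨[(x, true)], (x, false) :: L2, by rw [h]; simp⟩) h3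
        (by rw [h]; simp)
      subst h4
      rw [h, List.nil_append, FreeGroup.isReduced_cons_cons] at hLred
      simpa using hLred.1
  | false =>
    have e : FreeGroup.mk [(x, false)] = (FreeGroup.of x)⁻¹ := rfl
    rw [hsplit, hD.mul, e, hD.inv, hD.gen, if_pos rfl, one_mul, neg_mul, single_mul_single,
      mul_one, ← map_mul] at hD0
    have hone : φ ((FreeGroup.of x)⁻¹ * FreeGroup.mk L') = 1 := by
      rw [← e, ← hsplit]; exact hL1
    rw [hone] at hD0
    have hne : (D x (FreeGroup.mk L')).coeff 1 ≠ 0 := by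
      intro h0
      have := congrArg (fun F => (MonoidAlgebra.coeff F) 1) hD0
      simp [coeff_single, h0] at this
    rcases hD.support_mk x L' _ hne with ⟨L1, L2, h, h'⟩ | ⟨L1, L2, h, h'⟩
    · have h4 := hmin L2 (red_sub hLred ⟨(x, false) :: (L1 ++ [(x, true)]), [], by rw [h]; simp⟩) h'
        (by rw [h]; simp; omega)
      subst h4
      have h3 : φ (FreeGroup.mk L1) = 1 := by
        have h5 : φ (FreeGroup.mk ((x, false) :: L')) =
            φ (FreeGroup.mk [(x, false)]) * φ (FreeGroup.mk L1) * φ (FreeGroup.mk [(x, true)]) := by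
          rw [← hφapp, ← hφapp, h]; rfl
        rw [hL1] at h5
        have e3 : φ (FreeGroup.mk [(x, false)]) = (φ (FreeGroup.mk [(x, true)]))⁻¹ := by
          rw [← map_inv]; rfl
        rw [e3] at h5
        have h6 := h5.symm
        rw [mul_assoc, inv_mul_eq_one] at h6
        exact mul_eq_right.mp h6.symm
      have h4 := hmin L1 (red_sub hLred ⟨[(x, false)], [(x, true)], by rw [h]; simp⟩) h3
        (by rw [h]; simp)
      subst h4
      rw [h, List.nil_append, FreeGroup.isReduced_cons_cons] at hLred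
      simpa using hLred.1
    · have := hmin ((x, false) :: L2)
        (red_sub hLred ⟨(x, false) :: L1, [], by rw [h]; simp⟩) h'
        (by rw [h]; simp)
      simp at this

end

end MP0c5642
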