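import Mathlib

/-! Groups all of whose nontrivial finitely generated subgroups map onto the integers
have unique products; hence their group algebras over a field have no zero divisors. -/

namespace MP0c5642

open Finset

theorem uniqueProds_of_indicable {G : Type*} [Group G]
    (h : ∀ H : Subgroup G, H.FG → H ≠ ⊥ → ∃ f : H →* Multiplicative ℤ, f ≠ 1) :
    UniqueProds G := by
  classical
  have key : ∀ n : ℕ, ∀ A B : Finset G, A.Nonempty → B.Nonempty → #A + #B ≤ n →
      ∃ a ∈ A, ∃ b ∈ B, UniqueMul A B a b := by
    intro n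
    induction n with
    | zero =>
      intro A B hA hB hn
      have := hA.card_pos
      omega
    | succ n ih =>
      intro A B hA hB hn
      by_cases hc : #A ≤ 1 ∧ #B ≤ 1
      · exact UniqueMul.of_card_le_one hA hB hc.1 hc.2
      obtain ⟨a0, ha0⟩ := hA
      obtain ⟨b0, hb0⟩ := hB
      set S : Finset G := A.image (fun a => a0⁻¹ * a) ∪ B.image (fun b => b * b0⁻¹) with hS
      set H : Subgroup G := Subgroup.closure (S : Set G) with hH
      have hHfg : H.FG := ⟨S, rfl⟩
      have hAH : ∀ a ∈ A, a0⁻¹ * a ∈ H := fun a ha =>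
        Subgroup.subset_closure (by
          simp only [hS, coe_union, coe_image, Set.mem_union, Set.mem_image]
          exact Or.inl ⟨a, ha, rfl⟩)
      have hBH : ∀ b ∈ B, b * b0⁻¹ ∈ H := fun b hb =>
        Subgroup.subset_closure (by
          simp only [hS, coe_union, coe_image, Set.mem_union, Set.mem_image]
          exact Or.inr ⟨b, hb, rfl⟩)
      have hHne : H ≠ ⊥ := by
        intro hbot
        apply hc
        constructor
        · rw [Finset.card_le_one]
          intro a ha a' ha'
          have h1 := hAH a ha
          have h2 := hAH a' ha'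
          rw [hbot, Subgroup.mem_bot] at h1 h2
          have : a0⁻¹ * a = a0⁻¹ * a' := h1.trans h2.symm
          exact mul_left_cancel this
        · rw [Finset.card_le_one]
          intro a ha a' ha'
          have h1 := hBH a ha
          have h2 := hBH a' ha'
          rw [hbot, Subgroup.mem_bot] at h1 h2
          have : a * b0⁻¹ = a' * b0⁻¹ := h1.trans h2.symm
          exact mul_right_cancel this
      obtain ⟨f, hf⟩ := h H hHfg hHne
      -- extend f to a function on G
      set F : G → ℤ := fun g => if hg : g ∈ H then Multiplicative.toAdd (f ⟨g, hg⟩) else 0 with hF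
      have hFmul : ∀ g g' : G, g ∈ H → g' ∈ H → F (g * g') = F g + F g' := by
        intro g g' hg hg'
        have hgg : g * g' ∈ H := H.mul_mem hg hg'
        simp only [hF, hg, hg', hgg, dif_pos]
        have : (⟨g * g', hgg⟩ : H) = ⟨g, hg⟩ * ⟨g', hg'⟩ := rfl
        rw [this, map_mul, toAdd_mul]
      have hF1 : F 1 = 0 := by
        have := hFmul 1 1 H.one_mem H.one_mem
        rw [mul_one] at this
        omega
      have hFne : ∃ s ∈ S, F s ≠ 0 := by
        by_contra hcon
        push Not at hcon
        apply hf
        ext x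
        obtain ⟨x, hx⟩ := x
        have : F x = 0 := by
          refine Subgroup.closure_induction (p := fun y _ => F y = 0) ?_ hF1 ?_ ?_ hx
          · intro y hy; exact hcon y hy
          · intro y z hy hz h1 h2
            rw [hFmul y z hy hz, h1, h2, add_zero]
          · intro y hy h1
            have := hFmul y y⁻¹ hy (H.inv_mem hy)
            rw [mul_inv_cancel, hF1, h1] at this
            omega
        simp only [hF, hx, dif_pos] at this
        simpa using this
      -- maxima
      obtain ⟨a1, ha1, hamax⟩ := Finset.exists_max_image A (fun a => F (a0⁻¹ * a)) ⟨a0, ha0⟩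
      obtain ⟨b1, hb1, hbmax⟩ := Finset.exists_max_image B (fun b => F (b * b0⁻¹)) ⟨b0, hb0⟩
      set A1 := A.filter (fun a => F (a0⁻¹ * a) = F (a0⁻¹ * a1)) with hA1
      set B1 := B.filter (fun b => F (b * b0⁻¹) = F (b1 * b0⁻¹)) with hB1
      have hA1n : A1.Nonempty := ⟨a1, by simp [hA1, ha1]⟩
      have hB1n : B1.Nonempty := ⟨b1, by simp [hB1, hb1]⟩
      have hA1s : A1 ⊆ A := Finset.filter_subset _ _
      have hB1s : B1 ⊆ B := Finset.filter_subset _ _
      have hlt : #A1 + #B1 < #A + #B := by
        by_contra hcon
        push Not at hcon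
        have e1 : #A1 ≤ #A := Finset.card_le_card hA1s
        have e2 : #B1 ≤ #B := Finset.card_le_card hB1s
        have e3 : A1 = A := Finset.eq_of_subset_of_card_le hA1s (by omega)
        have e4 : B1 = B := Finset.eq_of_subset_of_card_le hB1s (by omega)
        have z1 : F (a0⁻¹ * a1) = 0 := by
          have : a0 ∈ A1 := by rw [e3]; exact ha0
          rw [hA1, Finset.mem_filter] at this
          rw [← this.2, inv_mul_cancel, hF1]
        have z2 : F (b1 * b0⁻¹) = 0 := by
          have : b0 ∈ B1 := by rw [e4]; exact hb0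
          rw [hB1, Finset.mem_filter] at this
          rw [← this.2, mul_inv_cancel, hF1]
        obtain ⟨s, hs, hs0⟩ := hFne
        rw [hS, Finset.mem_union, Finset.mem_image, Finset.mem_image] at hs
        rcases hs with ⟨a, ha, rfl⟩ | ⟨b, hb, rfl⟩
        · have : a ∈ A1 := by rw [e3]; exact ha
          rw [hA1, Finset.mem_filter] at this
          exact hs0 (this.2.trans z1)
        · have : b ∈ B1 := by rw [e4]; exact hb
          rw [hB1, Finset.mem_filter] at this
          exact hs0 (this.2.trans z2)
      obtain ⟨a, ha, b, hb, hu⟩ := ih A1 B1 hA1n hB1n (by omega)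
      refine ⟨a, hA1s ha, b, hB1s hb, ?_⟩
      intro x y hx hy hxy
      have hax := (Finset.mem_filter.mp ha).2
      have hby := (Finset.mem_filter.mp hb).2
      have e : F (a0⁻¹ * x) + F (y * b0⁻¹) = F (a0⁻¹ * a) + F (b * b0⁻¹) := by
        rw [← hFmul _ _ (hAH x hx) (hBH y hy), ← hFmul _ _ (hAH a (hA1s ha)) (hBH b (hB1s hb))]
        congr 1
        have : a0⁻¹ * x * (y * b0⁻¹) = a0⁻¹ * (x * y) * b0⁻¹ := by group
        rw [this, hxy]; group
      have m1 := hamax x hx
      have m2 := hbmax y hy
      have m3 : F (a0⁻¹ * x) = F (a0⁻¹ * a1) := by linarith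
      have m4 : F (y * b0⁻¹) = F (b1 * b0⁻¹) := by linarith
      exact hu (Finset.mem_filter.mpr ⟨hx, m3⟩) (Finset.mem_filter.mpr ⟨hy, m4⟩) hxy
  exact ⟨fun {A B} hA hB => key _ A B hA hB le_rfl⟩

end MP0c5642
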