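import Mathlib
import Pool.Agent.Lib.MP_0c5642_al.LocInd
import Pool.Agent.Lib.MP_0c5642_al.Exact
import Pool.Agent.Lib.MP_0c5642_al.Count

/-! Large two-generator one-relator groups. -/

namespace MP0c5642

open MonoidAlgebra LaurentPolynomial

/-- A two-generator one-relator group maps nontrivially to the integers. -/
lemma exists_hom (r : FreeGroup (Fin 2)) :
    ∃ χ : (FreeGroup (Fin 2) ⧸ Subgroup.normalClosure ({r} : Set (FreeGroup (Fin 2)))) →*
      Multiplicative ℤ, χ ≠ 1 := by
  let e : Fin 2 → (FreeGroup (Fin 2) →* Multiplicative ℤ) := fun i =>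
    FreeGroup.lift (fun j => if j = i then Multiplicative.ofAdd 1 else 1)
  have key : ∀ u : Fin 2 → ℤ, ∃ χ : FreeGroup (Fin 2) →* Multiplicative ℤ,
      (∀ w, Multiplicative.toAdd (χ w) = ∑ i, u i * Multiplicative.toAdd (e i w)) ∧
      ∀ i, χ (FreeGroup.of i) = Multiplicative.ofAdd (u i) := by
    intro u
    refine ⟨FreeGroup.lift (fun i => Multiplicative.ofAdd (u i)), ?_, fun i => by simp⟩
    intro w
    induction w using FreeGroup.induction_on with
    | C1 => simp
    | of a => simp [e, Fin.sum_univ_two]; fin_cases a <;> simp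
    | inv_of a h =>
      rw [map_inv, toAdd_inv, h]
      simp only [map_inv, toAdd_inv, mul_neg, Finset.sum_neg_distrib]
    | mul x y hx hy =>
      rw [map_mul, toAdd_mul, hx, hy, ← Finset.sum_add_distrib]
      simp only [map_mul, toAdd_mul, mul_add]
  have huv : ∃ u : Fin 2 → ℤ, (∃ i, u i ≠ 0) ∧
      ∑ i, u i * Multiplicative.toAdd (e i r) = 0 := by
    by_cases h : Multiplicative.toAdd (e 0 r) = 0 ∧ Multiplicative.toAdd (e 1 r) = 0
    · refine ⟨fun _ => 1, ⟨0, one_ne_zero⟩, ?_⟩
      rw [Fin.sum_univ_two, h.1, h.2]; ring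
    · refine ⟨![Multiplicative.toAdd (e 1 r), -Multiplicative.toAdd (e 0 r)], ?_, ?_⟩
      · by_contra hcon
        push Not at hcon
        apply h
        refine ⟨?_, ?_⟩
        · have := hcon 1
          simpa using this
        · have := hcon 0
          simpa using this
      · rw [Fin.sum_univ_two]
        simp only [Matrix.cons_val_zero, Matrix.cons_val_one]
        ring
  obtain ⟨u, ⟨i, hi⟩, hu⟩ := huv
  obtain ⟨χ, hχ, hχi⟩ := key u
  have hr : χ r = 1 := by
    apply Multiplicative.toAdd.injective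
    rw [hχ, hu]; rfl
  refine ⟨QuotientGroup.lift _ χ (fun g hg => ?_), fun h1 => ?_⟩
  · have : Subgroup.normalClosure ({r} : Set (FreeGroup (Fin 2))) ≤ χ.ker := by
      apply Subgroup.normalClosure_le_normal
      intro x hx
      rw [Set.mem_singleton_iff] at hx
      rw [hx]; exact hr
    exact this hg
  · have h2 := congrArg (fun F => F (QuotientGroup.mk (FreeGroup.of i))) h1
    simp only [QuotientGroup.lift_mk, hχi, MonoidHom.one_apply] at h2
    apply hi
    have h3 := congrArg Multiplicative.toAdd h2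
    simpa using h3

/-- If every finitely generated subgroup of infinite index is free and the group maps
nontrivially to `ℤ`, then nontrivial finitely generated subgroups map nontrivially to `ℤ`. -/
lemma indicable {G : Type*} [Group G] (χ : G →* Multiplicative ℤ) (hχ : χ ≠ 1)
    (CH : ∀ H : Subgroup G, H.FG → H.index = 0 → IsFreeGroup H)
    (H : Subgroup G) (hH : H.FG) (hne : H ≠ ⊥) : ∃ f : H →* Multiplicative ℤ, f ≠ 1 := by
  by_cases hi : H.index = 0
  · obtain ⟨ι, ⟨b⟩⟩ := (CH H hH hi).nonempty_basis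
    by_cases hι : IsEmpty ι
    · exfalso
      apply hne
      rw [Subgroup.eq_bot_iff_forall]
      intro x hx
      have : b.repr ⟨x, hx⟩ = b.repr 1 := by
        have : Subsingleton (FreeGroup ι) := inferInstance
        exact Subsingleton.elim _ _
      have := b.repr.injective this
      exact congrArg Subtype.val this
    · rw [not_isEmpty_iff] at hι
      obtain ⟨i⟩ := hι
      refine ⟨b.lift (fun _ => Multiplicative.ofAdd (1 : ℤ)), fun h => ?_⟩
      have h2 := congrArg (fun F => F (b i)) h
      simp at h2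
  · refine ⟨χ.comp H.subtype, fun h => ?_⟩
    apply hχ
    ext g
    obtain ⟨n, hn0, _, hn⟩ := Subgroup.exists_pow_mem_of_index_ne_zero hi g
    have h2 := congrArg (fun F => F ⟨g ^ n, hn⟩) h
    simp only [MonoidHom.comp_apply, Subgroup.coe_subtype, map_pow, MonoidHom.one_apply] at h2
    have h3 := congrArg Multiplicative.toAdd h2
    rw [toAdd_pow, toAdd_one, smul_eq_zero] at h3
    rcases h3 with h3 | h3
    · omega
    · simpa using h3

theorem main (r : FreeGroup (Fin 2))
    (hfree : ¬ IsFreeGroup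
      (FreeGroup (Fin 2) ⧸ Subgroup.normalClosure ({r} : Set (FreeGroup (Fin 2)))))
    (hlarge : ∃ G' : Subgroup
        (FreeGroup (Fin 2) ⧸ Subgroup.normalClosure ({r} : Set (FreeGroup (Fin 2)))),
      G'.index ≠ 0 ∧ ∃ f : G' →* FreeGroup (Fin 2), Function.Surjective f) :
    ∃ H : Subgroup
        (FreeGroup (Fin 2) ⧸ Subgroup.normalClosure ({r} : Set (FreeGroup (Fin 2)))),
      H.FG ∧ ¬ IsFreeGroup H ∧ H.index = 0 := by
  classical
  by_contra hcon
  have CH : ∀ H : Subgroup
      (FreeGroup (Fin 2) ⧸ Subgroup.normalClosure ({r} : Set (FreeGroup (Fin 2)))),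
      H.FG → H.index = 0 → IsFreeGroup H := by
    intro H h1 h2
    by_contra h3
    exact hcon ⟨H, h1, h3, h2⟩
  obtain ⟨H, hHi, f, hf⟩ := hlarge
  have : H.FiniteIndex := ⟨hHi⟩
  set G := FreeGroup (Fin 2) ⧸ Subgroup.normalClosure ({r} : Set (FreeGroup (Fin 2))) with hG
  let φ : FreeGroup (Fin 2) →* G := QuotientGroup.mk' _
  have hφs : Function.Surjective φ := QuotientGroup.mk'_surjective _
  have hker : φ.ker = Subgroup.normalClosure ({r} : Set (FreeGroup (Fin 2))) :=
    QuotientGroup.ker_mk' _
  have hr1 : r ≠ 1 := by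
    intro h
    apply hfree
    have hinj : Function.Injective φ := by
      rw [← MonoidHom.ker_eq_bot_iff, hker, h, eq_bot_iff]
      exact Subgroup.normalClosure_le_normal (by simp)
    exact IsFreeGroup.ofMulEquiv (MulEquiv.ofBijective φ ⟨hinj, hφs⟩)
  obtain ⟨χ, hχ⟩ := exists_hom r
  have hup : UniqueProds G := uniqueProds_of_indicable (fun K hK hKne =>
    indicable χ hχ CH K hK hKne)
  have hnzd : NoZeroDivisors (MonoidAlgebra ℚ G) := inferInstance
  obtain ⟨D, hD⟩ := exists_isFox φ
  have hφr : φ r = 1 := by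
    have : r ∈ φ.ker := by rw [hker]; exact Subgroup.subset_normalClosure rfl
    exact this
  have H1 : ∑ x, (single (φ (FreeGroup.of x)) 1 - 1) * D x r = 0 := by
    rw [hD.fundamental r, hφr, ← one_def, sub_self]
  have H2 := hD.exact hφs hker
  have H3 := hD.exists_ne_zero hker hr1
  have hX : Subgroup.closure (Set.range (fun x : Fin 2 => φ (FreeGroup.of x))) = ⊤ := by
    have e : Set.range (fun x : Fin 2 => φ (FreeGroup.of x)) =
        φ '' (Set.range (FreeGroup.of : Fin 2 → FreeGroup (Fin 2))) := by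
      rw [← Set.range_comp]; rfl
    rw [e, ← MonoidHom.map_closure, FreeGroup.closure_range_of]
    rw [← MonoidHom.range_eq_map]
    exact MonoidHom.range_eq_top.mpr hφs
  -- the degree and the Fox derivative on the free quotient
  let νF : FreeGroup (Fin 2) →* Multiplicative ℤ :=
    FreeGroup.lift (fun i => if i = 0 then Multiplicative.ofAdd 1 else 1)
  let TF : FreeGroup (Fin 2) →* LaurentPolynomial ℚ :=
    { toFun := fun w => T (Multiplicative.toAdd (νF w))
      map_one' := by rw [map_one, toAdd_one, T_zero]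
      map_mul' := fun a b => by rw [map_mul, toAdd_mul, T_add] }
  obtain ⟨δF, hδF, hδFa⟩ := exists_right_crossed TF
    (fun i => if i = 0 then (0 : LaurentPolynomial ℚ) else 1)
  obtain ⟨n0, hn0⟩ := hf (FreeGroup.of 1)
  obtain ⟨gt, hgt⟩ := hf (FreeGroup.of 0)
  have hνn0 : (νF.comp f) n0 = 1 := by
    rw [MonoidHom.comp_apply, hn0]
    simp [νF]
  have hνgt : (νF.comp f) gt = Multiplicative.ofAdd 1 := by
    rw [MonoidHom.comp_apply, hgt]
    simp [νF]
  have hδ0 : δF (f n0) ≠ 0 := by
    rw [hn0, hδFa]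
    simp
  obtain ⟨z, hz1, hz2⟩ := exists_z H (νF.comp f) (fun g => δF (f g))
    (fun g h => by
      change δF (f (g * h)) = δF (f g) * TF (f h) + δF (f h)
      rw [map_mul, hδF]) n0 hνn0 hδ0 gt hνgt hX H1
  -- a finitely generated subgroup
  have hfin : ∀ x : Fin 2, ∃ S : Finset G, (S : Set G) ⊆ (NN H (νF.comp f) : Set G) ∧
      D x r * z ∈ augIdeal (S : Set G) := by
    intro x
    have h1 := hz1 x
    unfold augIdeal at h1
    obtain ⟨T', hT', hx⟩ := Submodule.mem_span_finite_of_mem_span h1
    rw [Finset.subset_set_image_iff] at hT'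
    obtain ⟨S, hS, hST⟩ := hT'
    refine ⟨S, hS, ?_⟩
    unfold augIdeal
    rw [← hST, Finset.coe_image] at hx
    exact hx
  choose S hS1 hS2 using hfin
  set N0 : Subgroup G := Subgroup.closure ((S 0 ∪ S 1 : Finset G) : Set G) with hN0
  have hN0fg : N0.FG := ⟨_, rfl⟩
  have hN0le : N0 ≤ NN H (νF.comp f) := by
    rw [hN0, Subgroup.closure_le, Finset.coe_union]
    exact Set.union_subset (hS1 0) (hS1 1)
  have hN0i : N0.index = 0 := by
    by_contra hne
    obtain ⟨n, hn0', _, hn⟩ := Subgroup.exists_pow_mem_of_index_ne_zero hne (gt : G)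
    obtain ⟨h, hh, hh'⟩ := hN0le hn
    have e : h = gt ^ n := by
      apply Subtype.ext
      rw [Subgroup.coe_pow]
      exact hh'
    have h1 : (νF.comp f) h = 1 := hh
    rw [e, map_pow, hνgt] at h1
    have h2 := congrArg Multiplicative.toAdd h1
    simp at h2
    omega
  have hmem : ∀ x, D x r * z ∈ augIdeal (N0 : Set G) := by
    intro x
    rw [hN0, augIdeal_closure]
    refine augIdeal_mono ?_ (hS2 x)
    rw [Finset.coe_union]
    fin_cases x
    · exact Set.subset_union_left
    · exact Set.subset_union_right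
  have hfinal := tor_vanish H1 H2 H3 N0 (CH N0 hN0fg hN0i) z hmem
  exact hz2 (augIdeal_mono hN0le hfinal)

end MP0c5642
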